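import Pool.Agent.H8.VY.Maine

/-! # [H8 VW FIN] THEOREM VY with the clause on ALL curves `F + L = 0`, `deg L ≤ n - 4` -/

namespace Pool.Agent.H8.VW

open MvPolynomial Pool.Agent.H8.AA Pool.Agent.H8.VX

/-- all curves `F + L = 0`, `deg L ≤ n - 4`, no flex at infinity: together at most `80 n^3` integer points outside the box -/
theorem farL (n : ℕ) (hn : 4 ≤ n) (B S H : ℕ) (hB : 2 ≤ B) (hS : 1 ≤ S) (hH : 1 ≤ H)
    (F : MvPolynomial (Fin 2) ℤ) (hF : F.totalDegree ≤ n)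
    (hirr : Irreducible (map (Int.castRingHom ℚ) (homogeneousComponent n F)))
    (hflex : ∀ t b : ℝ, n - 2 ≤ (aeval ![Polynomial.X, Polynomial.C t * Polynomial.X + Polynomial.C b] F : Polynomial ℝ).natDegree)
    (hFB : ∀ m : Fin 2 →₀ ℕ, m.degree = n → |F.coeff m| ≤ (B : ℤ))
    (hFb : ∀ m : Fin 2 →₀ ℕ, m.degree < n → |F.coeff m| ≤ (S : ℤ) ^ (n - m.degree)) :
    {q : MvPolynomial (Fin 2) ℤ × (Fin 2 → ℤ) | q.1.totalDegree ≤ n - 4 ∧ (∀ m, |q.1.coeff m| ≤ (H : ℤ)) ∧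
      eval q.2 (F + q.1) = 0 ∧ ((B : ℤ) * S ^ n * H) ^ (700 * n ^ 5) < max |q.2 0| |q.2 1|}.encard ≤ (80 * n ^ 3 : ℕ) := by
  classical
  obtain ⟨h, hh⟩ : ∃ h : ℕ, h = B * S ^ n * H := ⟨_, rfl⟩
  have hSn1 : 1 ≤ S ^ n := Nat.one_le_pow _ _ hS
  have hBh : B ≤ h := by
    rw [hh]
    exact (Nat.le_mul_of_pos_right _ hSn1).trans (Nat.le_mul_of_pos_right _ hH)
  have hsum : S ^ n + H ≤ h := by
    rw [hh]
    have h1 : S ^ n + H ≤ 2 * (S ^ n * H) := by nlinarith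
    have h2 : 2 * (S ^ n * H) ≤ B * (S ^ n * H) := Nat.mul_le_mul_right _ hB
    rw [mul_assoc]
    exact h1.trans h2
  have hdeg : F.totalDegree = n := by
    refine le_antisymm hF ?_
    by_contra hcon
    push Not at hcon
    have h1 : homogeneousComponent n F = 0 := homogeneousComponent_eq_zero n F hcon
    rw [h1, map_zero] at hirr
    exact hirr.ne_zero rfl
  have hht : ∀ L : MvPolynomial (Fin 2) ℤ, L.totalDegree ≤ n - 4 → (∀ m, |L.coeff m| ≤ (H : ℤ)) →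
      ∀ m, |(F + L).coeff m| ≤ (h : ℤ) := by
    intro L hLd hL m
    have hsz : (S : ℤ) ^ n + H ≤ h := by exact_mod_cast hsum
    have hSd : ∀ d, (S : ℤ) ^ (n - d) ≤ (S : ℤ) ^ n := by
      intro d
      exact_mod_cast Nat.pow_le_pow_right hS (by omega)
    rw [coeff_add]
    rcases Nat.lt_or_ge m.degree n with h1 | h1
    · have h2 := (hFb m h1).trans (hSd _)
      calc |F.coeff m + L.coeff m| ≤ |F.coeff m| + |L.coeff m| := abs_add_le _ _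
        _ ≤ (S : ℤ) ^ n + H := add_le_add h2 (hL m)
        _ ≤ h := hsz
    · have h2 : L.coeff m = 0 := by
        by_contra h3
        have h4 := le_totalDegree (MvPolynomial.mem_support_iff.2 h3)
        have h5 : (m.sum fun _ e => e) = m.degree := rfl
        omega
      rw [h2, add_zero]
      rcases h1.lt_or_eq with h6 | h6
      · have h7 : F.coeff m = 0 := by
          by_contra h3
          have h4 := le_totalDegree (MvPolynomial.mem_support_iff.2 h3)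
          have h5 : (m.sum fun _ e => e) = m.degree := rfl
          omega
        rw [h7, abs_zero]
        positivity
      · refine (hFB m h6.symm).trans ?_
        exact_mod_cast hBh
  obtain ⟨g, hg⟩ : ∃ g : MvPolynomial (Fin 2) ℤ × (Fin 2 → ℤ) → MvPolynomial (Fin 2) ℤ × (ℤ × ℤ),
      g = fun q => (F + q.1, (q.2 0, q.2 1)) := ⟨_, rfl⟩
  have hinj : Function.Injective g := by
    rintro ⟨L, P⟩ ⟨L', P'⟩ hPQ
    rw [hg] at hPQ
    simp only [Prod.mk.injEq, add_right_inj] at hPQ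
    refine Prod.ext hPQ.1 ?_
    funext i
    fin_cases i
    · exact hPQ.2.1
    · exact hPQ.2.2
  -- every finite subset is small
  have hfs : ∀ T : Finset (MvPolynomial (Fin 2) ℤ × (Fin 2 → ℤ)),
      (∀ q ∈ T, q.1.totalDegree ≤ n - 4 ∧ (∀ m, |q.1.coeff m| ≤ (H : ℤ)) ∧
      eval q.2 (F + q.1) = 0 ∧ ((B : ℤ) * S ^ n * H) ^ (700 * n ^ 5) < max |q.2 0| |q.2 1|) → T.card ≤ 80 * n ^ 3 := by
    intro T hT
    rw [← Finset.card_image_of_injective T hinj]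
    refine Pool.Agent.H72.ES.bounded_exceptions hn (hB.trans hBh) F hdeg hirr hflex (T.image g) ?_
    intro q hq
    obtain ⟨⟨L, P⟩, hP, rfl⟩ := Finset.mem_image.1 hq
    obtain ⟨a1, a2, a3, a4⟩ := hT _ hP
    have hP2 : ![P 0, P 1] = P := by
      funext i
      fin_cases i <;> rfl
    rw [hg]
    refine ⟨?_, ?_, ?_, ?_⟩
    · show (F + L - F).totalDegree ≤ n - 4
      rw [add_sub_cancel_left]
      exact a1
    · exact hht L a1 a2
    · show eval ![P 0, P 1] (F + L) = 0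
      rw [hP2]
      exact a3
    · show (h : ℤ) ^ (600 * n ^ 5) < max |P 0| |P 1|
      rw [hh]
      push_cast
      exact lt_of_le_of_lt (box_le n hn B S H hB hS hH _ (by omega)) a4
  obtain ⟨U, hU⟩ : ∃ U : Set (MvPolynomial (Fin 2) ℤ × (Fin 2 → ℤ)), U = {q | q.1.totalDegree ≤ n - 4 ∧
      (∀ m, |q.1.coeff m| ≤ (H : ℤ)) ∧
      eval q.2 (F + q.1) = 0 ∧ ((B : ℤ) * S ^ n * H) ^ (700 * n ^ 5) < max |q.2 0| |q.2 1|} := ⟨_, rfl⟩
  rw [← hU]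
  by_cases hfin : U.Finite
  · rw [hfin.encard_eq_coe_toFinset_card]
    have h1 := hfs hfin.toFinset (fun q hq => by
      have h2 := (Set.Finite.mem_toFinset hfin).1 hq
      rw [hU] at h2
      exact h2)
    exact_mod_cast h1
  · exfalso
    obtain ⟨T, hTs, hTc⟩ := Set.Infinite.exists_subset_card_eq hfin (80 * n ^ 3 + 1)
    have h1 := hfs T (fun q hq => by
      have h2 := hTs hq
      rw [hU] at h2
      exact h2)
    omega

/-- THEOREM VW: the hand-in -/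
theorem fin (n : ℕ) (hn : 4 ≤ n) (B S H : ℕ) (hB : 2 ≤ B) (hS : 1 ≤ S) (hH : 1 ≤ H)
    (F : MvPolynomial (Fin 2) ℤ) (hF : F.totalDegree ≤ n)
    (hirr : Irreducible (map (Int.castRingHom ℚ) (homogeneousComponent n F)))
    (hFB : ∀ m : Fin 2 →₀ ℕ, m.degree = n → |F.coeff m| ≤ (B : ℤ))
    (hFb : ∀ m : Fin 2 →₀ ℕ, m.degree < n → |F.coeff m| ≤ (S : ℤ) ^ (n - m.degree)) :
    {P : Fin 2 → ℤ | |eval P F| ≤ (H : ℤ)}.Finite ∧
    (({P : Fin 2 → ℤ | |eval P F| ≤ (H : ℤ)}.ncard : ℕ) : ℝ) ≤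
      (B : ℝ) ^ (3000 * n ^ 4) * ((S : ℝ) ^ (1 - 1 / (36 * (n : ℝ) ^ 2)) + (H : ℝ) ^ (2 / (n : ℝ)) * (1 + Real.log H)) ∧
    (({P : Fin 2 → ℤ | |eval P F| ≤ (H : ℤ) ∧
      ((B : ℤ) * S ^ n * H) ^ (700 * n ^ 5) < max |P 0| |P 1|}.ncard : ℕ) : ℝ) ≤ 360 * n ^ 4 * (H : ℝ) ^ (1 / (n : ℝ)) ∧
    (({c : ℤ | |c| ≤ (H : ℤ) ∧ ∃ P : Fin 2 → ℤ, eval P (F + C c) = 0}.ncard : ℕ) : ℝ) ≤
      (B : ℝ) ^ (3000 * n ^ 4) * ((S : ℝ) ^ (1 - 1 / (36 * (n : ℝ) ^ 2)) + (H : ℝ) ^ (2 / (n : ℝ)) * (1 + Real.log H)) ∧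
    (({c : ℤ | |c| ≤ (H : ℤ) ∧ ∃ P : Fin 2 → ℤ, eval P (F + C c) = 0 ∧
      ((B : ℤ) * S ^ n * H) ^ (700 * n ^ 5) < max |P 0| |P 1|}.ncard : ℕ) : ℝ) ≤ 360 * n ^ 4 * (H : ℝ) ^ (1 / (n : ℝ)) ∧
    ((∀ t b : ℝ,
      n - 2 ≤ (aeval ![Polynomial.X, Polynomial.C t * Polynomial.X + Polynomial.C b] F : Polynomial ℝ).natDegree) →
      {q : MvPolynomial (Fin 2) ℤ × (Fin 2 → ℤ) | q.1.totalDegree ≤ n - 4 ∧ (∀ m, |q.1.coeff m| ≤ (H : ℤ)) ∧
        eval q.2 (F + q.1) = 0 ∧ ((B : ℤ) * S ^ n * H) ^ (700 * n ^ 5) < max |q.2 0| |q.2 1|}.encard ≤ (80 * n ^ 3 : ℕ)) := by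
  obtain ⟨h1, h2, h3, h4⟩ := Pool.Agent.H8.VY.fine n hn B S H hB hS hH F hF hirr hFB hFb
  obtain ⟨h5, h6⟩ := h4 _ (Or.inl rfl)
  exact ⟨h1, h2, h5, h3, h6, fun hflex => farL n hn B S H hB hS hH F hF hirr hflex hFB hFb⟩

end Pool.Agent.H8.VW
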